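import Pool.Agent.H179R3.IntFlow

set_option autoImplicit false

namespace Pool.Agent.Results.MP_95f808_co.TwoKPlusTwo

/-!
Circular `(2 + 2/k)`-flows of `(2k+2)`-edge-connected multigraphs, planar or not, for every `k ≥ 1`.

A multigraph is given by its finite vertex type `V`, its finite edge type `E` and the two ends
`s d : E → V` of the edges in a reference orientation (parallel edges and loops are allowed).
-/

/-- The edge cut of the vertex set `X`: the edges with exactly one end in `X`. -/
def cut {V E : Type} [DecidableEq V] [Fintype E] (s d : E → V) (X : Finset V) : Finset E :=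
  Finset.univ.filter (fun e => (s e ∈ X ∧ d e ∉ X) ∨ (s e ∉ X ∧ d e ∈ X))

/-- Let `k ≥ 1`. A finite multigraph in which every edge cut with an odd number of edges has at
least `2k+3` edges (for instance a `(2k+2)`-edge-connected one) has a circular `(2 + 2/k)`-flow, in
the form of an integer flow with all absolute values in `{k, k+1, k+2}`. -/
theorem result (k : ℕ) (hk : 0 < k) (V E : Type) [Fintype V] [DecidableEq V] [Fintype E]
    (s d : E → V) (h : ∀ X : Finset V, Odd (cut s d X).card → 2 * k + 3 ≤ (cut s d X).card) :
    ∃ f : E → ℤ, (∀ e, (k : ℤ) ≤ |f e| ∧ |f e| ≤ (k : ℤ) + 2) ∧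
      ∀ v : V, ∑ e ∈ Finset.univ.filter (fun e => s e = v), f e
        = ∑ e ∈ Finset.univ.filter (fun e => d e = v), f e := by
  classical
  exact Pool.Agent.H179R3.int_flow_of_odd_cuts k hk s d h

end Pool.Agent.Results.MP_95f808_co.TwoKPlusTwo
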